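import Mathlib
import Pool.Agent.Q148.BM.Main

/-!
# The crystalline geometric Breuil–Mézard conjecture as a family of relations between cycles

Notation. `K / ℚ_p` has residue degree `f` and ramification index `e`; `Emb f e = ℤ/f × Fin e`
is the set of embeddings `K → E`, `(i, t)` lying over the embedding `i` of the residue field and
`i + 1` being `Frobenius ∘ i`. A labelled weight `l : HT (Emb f e) d` is a family of `d` integers
for every embedding; the regular ones, `Reg l`, are the regular labelled Hodge–Tate weights.
-/

namespace Pool.Agent.Results.MP_4c60d4_nt.FrobeniusRelations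

open Q148.BM Finset

/-- The data of the crystalline geometric Breuil–Mézard conjecture for `K` and `d`, and the
published properties that are used. `W`: the set of Serre weights. `A`: the group of cycles in
the reduced stack. `n k l`: the multiplicity of the Serre weight `k` in the reduction of the
algebraic representation attached to the Hodge–Tate weights `l`. `Z l`: the cycle of the special
fibre of the crystalline stack with Hodge–Tate weights `l`. -/
structure CrysData (p f e d : ℕ) [NeZero f] [NeZero e] [NeZero d] (W A : Type*) [Fintype W]
    [AddCommGroup A] where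
  /-- multiplicities of Serre weights -/
  n : W → HT (Emb f e) d → ℤ
  /-- cycles of the special fibres -/
  Z : HT (Emb f e) d → A
  /-- the number of Serre weights is `(q - 1) q ^ (d - 1)` -/
  card_weights : Fintype.card W = (p ^ f - 1) * p ^ (f * (d - 1))
  /-- Brauer characters: the multiplicities satisfy the Frobenius relations -/
  frobenius_n : ∀ k, PowRel p d (n k)
  /-- the multiplicity vectors span -/
  span_n : Submodule.span ℤ {v : W → ℤ | ∃ l, Reg l ∧ v = fun k => n k l} = ⊤
  /-- twisting by crystalline characters which are trivial modulo `p` -/
  twist : TwistRel p Z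
  /-- duality of representations -/
  dual : ∃ ι : A ≃+ A, ∀ l, Reg l → Z (revNeg l) = ι (Z l)

/-- The identities of the conjecture hold with suitable cycles `Z_k` if and only if the cycles
`Z l` satisfy the Frobenius relations of degree at most `d / 2`. -/
theorem result {p f e d : ℕ} [NeZero f] [NeZero e] [NeZero d] (hp : p.Prime)
    {W A : Type*} [Fintype W] [AddCommGroup A] [IsAddTorsionFree A]
    (D : CrysData p f e d W A) :
    (∃ μ : W → A, ∀ l, Reg l → D.Z l = ∑ k, D.n k l • μ k) ↔
      ∀ (i : ZMod f) (t t' : Fin e) (m : ℕ), 1 ≤ m → m ≤ d / 2 → ∀ l : HT (Emb f e) d,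
        ∑ s, alt D.Z (l + bump (i, t) {s} (m * p)) =
          ∑ s, alt D.Z (l + bump (i + 1, t') {s} m) := by
  classical
  obtain ⟨ι, hι⟩ := D.dual
  constructor
  · rintro ⟨μ, hμ⟩
    exact pow_sum (fun k => (D.frobenius_n k).mono (Nat.div_le_self d 2)) μ hμ
  · intro hr
    have hE := elem_family (R := Unit) (T := Unit) (fun _ _ => D.Z) (fun _ _ => D.twist)
      (Equiv.refl _) (Equiv.refl _) ι (fun _ _ => hι) (fun _ _ => hr)
    exact exists_cycles hp.two_le D.card_weights D.frobenius_n D.span_n (hE () ())

end Pool.Agent.Results.MP_4c60d4_nt.FrobeniusRelations
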