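import Mathlib
import Pool.Agent.Q148.BM.Red

/-!
# The crystalline geometric Breuil–Mézard conjecture: one-sided relations and lifts of Serre
weights

Notation. `K / ℚ_p` has residue degree `f` and ramification index `e`; `Emb f e = ℤ/f × Fin e`
is the set of embeddings `K → E`, `(i, t)` lying over the embedding `i` of the residue field and
`i + 1` being `Frobenius ∘ i`. A labelled weight `l : HT (Emb f e) d` is a family of `d` integers
for every embedding; the regular ones, `Reg l`, are the regular labelled Hodge–Tate weights.
-/

namespace Pool.Agent.Results.MP_4c60d4_nt.OneSidedRelations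

open Q148.BM Finset

/-- The data of the crystalline geometric Breuil–Mézard conjecture for `K` and `d`, with the
properties that are used. `W`: the set of Serre weights. `V`: the components of the reduced stack;
cycles are functions `V → ℤ`. `n k l`: the multiplicity of the Serre weight `k` in the reduction
of the algebraic representation attached to the Hodge–Tate weights `l`. `Z l`: the cycle of the
special fibre of the crystalline stack with Hodge–Tate weights `l`. `C k`: given cycles. -/
structure LowerData (p f e d : ℕ) [NeZero f] [NeZero e] [NeZero d] (W V : Type*)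
    [Fintype W] where
  /-- multiplicities of Serre weights -/
  n : W → HT (Emb f e) d → ℤ
  /-- cycles of the special fibres -/
  Z : HT (Emb f e) d → V → ℤ
  /-- cycles attached to the Serre weights -/
  C : W → V → ℤ
  /-- Brauer characters: the multiplicities satisfy the Frobenius relations -/
  frobenius_n : ∀ k, PowRel p d (n k)
  /-- twisting by crystalline characters which are trivial modulo `p` -/
  twist : TwistRel p Z
  /-- the lower bound of patching -/
  lower : ∀ l, Reg l → ∑ k, n k l • C k ≤ Z l

/-- Given the lower bound, the identities of the conjecture hold with the cycles `C k` if and only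
if they hold for the finitely many Hodge–Tate weights which lift Serre weights and the one-sided
Frobenius relations hold at the regular weights (coefficient by coefficient). -/
theorem result {p f e d : ℕ} [NeZero f] [NeZero e] [NeZero d] (hp : p.Prime)
    {W V : Type*} [Fintype W] (D : LowerData p f e d W V) :
    (∀ l, Reg l → D.Z l = ∑ k, D.n k l • D.C k) ↔
      (∀ b, IsLift p b → D.Z b = ∑ k, D.n k b • D.C k) ∧
      (∀ (i : ZMod f) (k : ℕ), 1 ≤ k → k < d → ∀ l : HT (Emb f e) d, Reg l →
        ∑ S ∈ powersetCard k univ, alt D.Z (l + bump (i, 0) S p) ≤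
          ∑ S ∈ powersetCard k univ, alt D.Z (l + bump (i + 1, 0) S 1)) ∧
      (∀ (i : ZMod f) (a : Fin e) (k : ℕ), 1 ≤ k → k < d → ∀ l : HT (Emb f e) d, Reg l →
        ∑ S ∈ powersetCard k univ, alt D.Z (l + bump (i, a) S 1) ≤
          ∑ S ∈ powersetCard k univ, alt D.Z (l + bump (i, 0) S 1)) := by
  have hv : ∀ (v : V) (m : HT (Emb f e) d), alt D.Z m v = alt (fun l => D.Z l v) m :=
    fun v m => (alt_map (Pi.evalAddMonoidHom (fun _ : V => ℤ) v) D.Z m).symm
  have hsum : ∀ (v : V) (l : HT (Emb f e) d), (∑ k, D.n k l • D.C k) v =
      ∑ k, D.n k l * D.C k v := by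
    intro v l
    rw [Finset.sum_apply]
    rfl
  have hineq : ∀ v, IneqReg p (fun l => D.Z l v) ↔
      (∀ (i : ZMod f) (k : ℕ), 1 ≤ k → k < d → ∀ l : HT (Emb f e) d, Reg l →
        (∑ S ∈ powersetCard k univ, alt D.Z (l + bump (i, 0) S p)) v ≤
          (∑ S ∈ powersetCard k univ, alt D.Z (l + bump (i + 1, 0) S 1)) v) ∧
      (∀ (i : ZMod f) (a : Fin e) (k : ℕ), 1 ≤ k → k < d → ∀ l : HT (Emb f e) d, Reg l →
        (∑ S ∈ powersetCard k univ, alt D.Z (l + bump (i, a) S 1)) v ≤
          (∑ S ∈ powersetCard k univ, alt D.Z (l + bump (i, 0) S 1)) v) := by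
    intro v
    simp only [Finset.sum_apply, hv]
    rfl
  constructor
  · intro h
    refine ⟨fun b hb => h b hb.1, ?_⟩
    have key : ∀ v, IneqReg p (fun l => D.Z l v) := by
      intro v
      have := (one_sided_reg (T := Unit) hp.two_le (fun _ => D.n) (fun _ => D.frobenius_n)
        (fun _ l => D.Z l v) (fun _ i t t' l hl => congrFun (D.twist i t t' l hl) v)
        (fun k => D.C k v) (fun _ l hl => by rw [← hsum]; exact D.lower l hl v)
        (fun _ b hb => by rw [← hsum, ← h b hb.1])).1
        (fun _ l hl => by rw [← hsum, ← h l hl])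
      exact this ()
    exact ⟨fun i k h1 h2 l hl v => ((hineq v).1 (key v)).1 i k h1 h2 l hl,
      fun i a k h1 h2 l hl v => ((hineq v).1 (key v)).2 i a k h1 h2 l hl⟩
  · rintro ⟨h0, h1, h2⟩ l hl
    funext v
    have := (one_sided_reg (T := Unit) hp.two_le (fun _ => D.n) (fun _ => D.frobenius_n)
      (fun _ l => D.Z l v) (fun _ i t t' l hl => congrFun (D.twist i t t' l hl) v)
      (fun k => D.C k v) (fun _ l hl => by rw [← hsum]; exact D.lower l hl v)
      (fun _ b hb => by rw [← hsum, ← h0 b hb])).2
      (fun _ => (hineq v).2 ⟨fun i k a b l hl => h1 i k a b l hl v,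
        fun i a k b c l hl => h2 i a k b c l hl v⟩)
    rw [hsum]
    exact this () l hl

end Pool.Agent.Results.MP_4c60d4_nt.OneSidedRelations
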