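import Mathlib
import Pool.Agent.Q148.BM.TensLe

/-!
# Geometric Breuil–Mézard for crystalline and tame types: from Hodge type zero to all Hodge types
by one-sided recursive bounds

Notation. `J`: the embeddings `K → E`. A labelled weight `l : HT J d` is a family of `d` integers
for every embedding; the regular ones, `Reg l`, are the regular labelled Hodge–Tate weights;
`eta = (d-1,…,0)` is the Hodge type zero (for `d = 2`: potentially Barsotti–Tate). `T`: the
irreducible representations `σ(t)` of `GL_d(k)` in characteristic zero, `k` the residue field;
they correspond to the tame inertial types together with a monodromy stratum. The trivial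
representation corresponds to the crystalline case.
-/

namespace Pool.Agent.Results.MP_4c60d4_nt.TameRecursion

open Q148.BM Finset

/-- The data of the geometric conjecture for `K`, `d` and tame types, with the properties that
are used. `W`: the set of Serre weights. `V`: the components of the reduced stack; cycles are
functions `V → ℤ`. `n t k l`: the multiplicity of the Serre weight `k` in the reduction of the
product of `σ(t)` and the algebraic representation attached to `l`. `Z t l`: the cycle of the
special fibre of the stack for `σ(t)` and the Hodge–Tate weights `l` (the components of the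
potentially semistable stack are counted with the multiplicity of `σ(t)` in the attached smooth
representations; for the trivial representation it is the crystalline stack). `C k`: given
cycles. -/
structure TameData (d : ℕ) (J T W V : Type*) [Fintype J] [DecidableEq J] [Fintype W] where
  /-- multiplicities of Serre weights -/
  n : T → W → HT J d → ℤ
  /-- cycles of the special fibres -/
  Z : T → HT J d → V → ℤ
  /-- cycles attached to the Serre weights -/
  C : W → V → ℤ
  /-- `c j i t t'`: the coefficient of `σ(t')` in the product of `σ(t)` with the Brauer lift of
  the `i`-th exterior power of the standard representation (along `j`) -/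
  c : J → ℕ → T → (T →₀ ℤ)
  /-- `σ(τ j t)` is the product of `σ(t)` with the Brauer lift of the determinant -/
  τ : J → T ≃ T
  /-- the meaning of `τ` -/
  det : ∀ j t, c j d t = Finsupp.single (τ j t) 1
  /-- Pieri's rule: the multiplicities of Serre weights satisfy the tensor relations -/
  tensor_n : ∀ k, TensRel d c (fun t => n t k)
  /-- twisting by potentially crystalline characters which are trivial modulo `p` -/
  twist : ∀ t j (l : HT J d), Reg l → Z t (l + bump j univ 1) = Z (τ j t) l
  /-- the lower bound of patching -/
  lower : ∀ t l, Reg l → ∑ k, n t k l • C k ≤ Z t l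

/-- Given the lower bound, the identities of the conjecture hold with the cycles `C k` for all
tame types (the crystalline case included) and all Hodge–Tate weights if and only if they hold
for Hodge type zero and the one-sided tensor relations hold at the regular weights (coefficient
by coefficient). -/
theorem result {d : ℕ} (hd : 0 < d) {J T W V : Type*} [Fintype J] [DecidableEq J] [Fintype W]
    (D : TameData d J T W V) :
    (∀ t l, Reg l → D.Z t l = ∑ k, D.n t k l • D.C k) ↔
      (∀ t, D.Z t eta = ∑ k, D.n t k eta • D.C k) ∧
      (∀ t (j : J) (i : ℕ), 1 ≤ i → i < d → ∀ l : HT J d, Reg l →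
        ∑ S ∈ powersetCard i univ, alt (D.Z t) (l + bump j S 1) ≤
          (D.c j i t).sum fun t' m => m • D.Z t' l) := by
  have hv : ∀ (v : V) (t : T) (m : HT J d), alt (D.Z t) m v = alt (fun l => D.Z t l v) m :=
    fun v t m => (alt_map (Pi.evalAddMonoidHom (fun _ : V => ℤ) v) (D.Z t) m).symm
  have hsum : ∀ (v : V) (t : T) (l : HT J d), (∑ k, D.n t k l • D.C k) v =
      ∑ k, D.n t k l * D.C k v := by
    intro v t l
    rw [Finset.sum_apply]
    rfl
  have hr : ∀ (v : V) (j : J) (i : ℕ) (t : T) (l : HT J d),
      ((D.c j i t).sum fun t' m => m • D.Z t' l) v =
        (D.c j i t).sum fun t' m => m * D.Z t' l v := by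
    intro v j i t l
    simp only [Finsupp.sum, Finset.sum_apply]
    rfl
  have hl : ∀ (v : V) (t : T) (j : J) (i : ℕ) (l : HT J d),
      (∑ S ∈ powersetCard i univ, alt (D.Z t) (l + bump j S 1)) v =
        ∑ S ∈ powersetCard i univ, alt (fun l => D.Z t l v) (l + bump j S 1) := by
    intro v t j i l
    rw [Finset.sum_apply]
    exact Finset.sum_congr rfl fun S _ => hv v t _
  have key : ∀ v : V, (∀ t l, Reg l → D.Z t l v = ∑ k, D.n t k l * D.C k v) ↔
      TensLe D.c (fun t l => D.Z t l v) ∧ ∀ t, D.Z t eta v = ∑ k, D.n t k eta * D.C k v :=
    fun v => criterionTL hd D.det D.tensor_n (fun t l => D.Z t l v)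
      (fun t j l hl => congrFun (D.twist t j l hl) v) (fun k => D.C k v)
      (fun t l h => by rw [← hsum]; exact D.lower t l h v)
  constructor
  · intro h
    refine ⟨fun t => h t eta reg_eta, fun t j i h1 h2 l hl' v => ?_⟩
    rw [hl, hr]
    exact ((key v).1 fun t l hl => by rw [h t l hl, hsum]).1 t j i h1 h2 l hl'
  · rintro ⟨h0, h1⟩ t l hl'
    funext v
    rw [hsum]
    refine (key v).2 ⟨fun t j i a b l hl' => ?_, fun t => by rw [h0 t, hsum]⟩ t l hl'
    have := h1 t j i a b l hl' v
    rwa [hl, hr] at this

end Pool.Agent.Results.MP_4c60d4_nt.TameRecursion
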